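import Pool.Agent.H59.PG.Stmts

/-!
# Row EAS: the easy implications
-/

set_option autoImplicit false

namespace Pool.PG

open Filter TMLib

namespace EASx

lemma win_of (hSOL : SOLStmt) {g : Game} (hg : Valid g) {v : ℕ} (hv : v < g.length) (b : Bool)
    (hb : b = true ↔ Win g true v) : Win g b v := by
  classical
  rw [(hSOL g hg).2 v hv b]
  unfold win
  by_cases h : Win g true v
  · rw [decide_eq_true h, hb.2 h]
  · have : b ≠ true := fun h' => h (hb.1 h')
    rw [decide_eq_false h]
    simpa using this.symm

lemma uniq (hSOL : SOLStmt) {g : Game} (hg : Valid g) {v : ℕ} (hv : v < g.length) {i j : Bool}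
    (hi : Win g i v) (hj : Win g j v) : i = j :=
  ((hSOL g hg).2 v hv i).1 hi ▸ ((hSOL g hg).2 v hv j).1 hj

lemma ptimeEas_labels {B : Game × ℕ → Bool} (hB : PTime B) :
    PTime (fun g : Game => (List.range g.length).map fun v => B (g, v)) :=
  PTime.map (PTime.range (PTime.length PTime.id)) (hB.comp (PTime.pair (PTime.fst PTime.id)
    (PTime.snd PTime.id)))

end EASx

open EASx in
theorem eas_thm (hSOL : SOLStmt) (hRST : RSTStmt) (hRSL : RSLStmt) (hPRS : PRSStmt) : EASStmt := by
  classical
  refine ⟨?_, ?_, ?_, ?_, ?_, ?_, ?_⟩
  · rintro δ ⟨B, hB, h⟩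
    refine ⟨_, ptimeEas_labels hB, fun g hg => ?_⟩
    have e : right g ((List.range g.length).map fun v => B (g, v)) = g.length := by
      unfold right
      rw [Finset.filter_true_of_mem, Finset.card_range]
      intro v hv
      have hv' : v < g.length := Finset.mem_range.1 hv
      have e1 : ((List.range g.length).map fun v => B (g, v)).getD v false = B (g, v) := by
        simp [List.getD_eq_getElem?_getD, List.getElem?_map, List.getElem?_range hv']
      rw [e1]
      exact win_of hSOL hg hv' _ (h g v hg hv')
    rw [e]
    have h1 : (0 : ℝ) ≤ (g.length : ℝ) ^ δ := Real.rpow_nonneg (Nat.cast_nonneg _) _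
    have h2 : (0 : ℝ) ≤ (g.length : ℝ) := Nat.cast_nonneg _
    linarith
  · rintro ⟨B, hB, h⟩
    refine ⟨fun g => (0, B (g, 0)), PTime.pair (PTime.const 0)
      (hB.comp (PTime.pair PTime.id (PTime.const 0))), fun g hg h0 => ⟨h0, ?_⟩⟩
    exact win_of hSOL hg h0 _ (h g 0 hg h0)
  · rintro ⟨B, hB, h⟩
    refine ⟨fun g => ((List.range g.length).filter fun v => B (g, v)).length,
      PTime.length (PTime.filter (PTime.range (PTime.length PTime.id))
        (hB.comp (PTime.pair (PTime.fst PTime.id) (PTime.snd PTime.id)))), fun g hg h0 => ?_⟩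
    have e : ((List.range g.length).filter fun v => B (g, v)).length = numWin g := by
      unfold numWin
      have : ((Finset.range g.length).filter fun v => Win g true v) =
          ((List.range g.length).filter fun v => B (g, v)).toFinset := by
        ext v
        simp only [Finset.mem_filter, Finset.mem_range, List.mem_toFinset, List.mem_filter,
          List.mem_range]
        refine and_congr_right fun hv => ?_
        exact (h g v hg hv).symm
      rw [this, List.toFinset_card_of_nodup (List.nodup_range.filter _)]
    show 2 * |((((List.range g.length).filter fun v => B (g, v)).length : ℕ) : ℤ) - numWin g| < g.length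
    rw [e]
    simpa using h0
  · rintro m hm ⟨B, hB, h⟩
    refine ⟨fun l => l.map B, PTime.map (g := fun _ p => B p) PTime.id (hB.comp (PTime.snd PTime.id)), ?_⟩
    intro l hl hp
    have h0 : 0 < l.length := by omega
    refine ⟨0, hm, ?_⟩
    have e1 : l.getD 0 ([], 0) = l[0] := by
      simp [List.getD_eq_getElem?_getD, List.getElem?_eq_getElem h0]
    have e2 : (l.map B).getD 0 false = B l[0] := by
      simp [List.getD_eq_getElem?_getD, List.getElem?_eq_getElem h0]
    rw [e1, e2]
    obtain ⟨h1, h2⟩ := hp _ (List.getElem_mem h0)
    exact win_of hSOL h1 h2 _ (h _ _ h1 h2)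
  · rintro ⟨B, hB, h⟩
    refine ⟨fun g => (B g).2, PTime.snd hB, fun g i hg h0 hi => ?_⟩
    obtain ⟨h1, h2⟩ := h g hg h0
    exact uniq hSOL hg h1 h2 (hi _ h1)
  · rintro ⟨B, hB, h⟩
    refine ⟨fun g => decide (g.length < 2 * B g), PTime.lt (PTime.length PTime.id)
      (PTime.mul (PTime.const 2) hB), fun g i hg h0 hi => ?_⟩
    have h1 := h g hg h0
    cases i with
    | true =>
      have e : numWin g = g.length := by
        unfold numWin
        rw [Finset.filter_true_of_mem, Finset.card_range]
        intro v hv
        exact hi v (Finset.mem_range.1 hv)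
      rw [e] at h1
      have : g.length < 2 * B g := by
        have := neg_abs_le ((B g : ℤ) - g.length)
        omega
      simpa using this
    | false =>
      have e : numWin g = 0 := by
        unfold numWin
        rw [Finset.card_eq_zero, Finset.filter_eq_empty_iff]
        intro v hv h'
        have := uniq hSOL hg (Finset.mem_range.1 hv) h' (hi v (Finset.mem_range.1 hv))
        simp at this
      rw [e] at h1
      have : ¬ g.length < 2 * B g := by
        have := le_abs_self ((B g : ℤ) - (0 : ℕ))
        push_cast at *
        omega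
      simpa using this
  · rintro ⟨B, hB, h⟩
    refine ⟨fun p => B (rst p.2 p.1), hB.comp (hPRS.comp (PTime.pair (PTime.snd PTime.id)
      (PTime.fst PTime.id))), fun g v hg hv => ?_⟩
    obtain ⟨hlen, -, -, -, -, hval⟩ := hRSL g v
    have hV := hval hg hv
    have h1 : B (rst v g) = win g v := by
      refine h _ _ hV (by rw [hlen]; omega) fun u hu => ?_
      rw [(hSOL _ hV).2 u hu]
      exact hRST g v hg hv u hu
    show B (rst v g) = true ↔ Win g true v
    rw [h1]
    exact ((hSOL g hg).2 v hv true).symm

end Pool.PG
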